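import Pool.Agent.Helper80.MM.Stm
import Pool.Agent.Helper58.NL.Base
import Mathlib.GroupTheory.GroupAction.MultipleTransitivity

/-! Package LOGB of the project MM: an adapted basis of the space of the logarithms. -/

set_option autoImplicit false

namespace Pool.Agent.Helper58.MM

open Pool.Agent.Helper35.EM Pool.Agent.Helper56.SA Pool.Agent.Helper56.EM Pool.Agent.Helper56.NL
  Pool.Agent.Helper80.MM Pool.Agent.Helper58.NL
open Module Submodule Set ComplexConjugate

/-- the logarithms of the primes are linearly independent -/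
theorem logs_indep : LinearIndependent ℚ fun p : Nat.Primes => Real.log (p : ℕ) := by
  rw [← LinearIndependent.iff_fractionRing (R := ℤ), linearIndependent_iff]
  intro a ha
  rw [Finsupp.linearCombination_apply, Finsupp.sum] at ha
  have h1 : ∏ p ∈ a.support, ((p : ℕ) : ℝ) ^ (a p) = 1 := by
    have h2 := congrArg Real.exp ha
    rw [Real.exp_sum, Real.exp_zero] at h2
    rw [← h2]
    refine Finset.prod_congr rfl fun p _ => ?_
    rw [zsmul_eq_mul, mul_comm, Real.exp_mul, Real.exp_log (by exact_mod_cast p.2.pos),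
      Real.rpow_intCast]
  have h2 : ∏ p ∈ a.support, ((p : ℕ) : ℚ) ^ (a p) = 1 := by
    have h : ((∏ p ∈ a.support, ((p : ℕ) : ℚ) ^ (a p) : ℚ) : ℝ) = 1 := by
      rw [← h1, Rat.cast_prod]
      refine Finset.prod_congr rfl fun p _ => ?_
      rw [Rat.cast_zpow, Rat.cast_natCast]
    exact_mod_cast h
  ext q
  haveI : Fact (Nat.Prime (q : ℕ)) := ⟨q.2⟩
  have h3 : ∀ s : Finset Nat.Primes, padicValRat (q : ℕ) (∏ p ∈ s, ((p : ℕ) : ℚ) ^ (a p)) =
      if q ∈ s then a q else 0 := by
    intro s
    induction s using Finset.induction_on with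
    | empty => simp
    | insert p s hp ih =>
      have hne : ∀ r : Nat.Primes, (((r : ℕ) : ℚ) ^ (a r)) ≠ 0 := fun r =>
        zpow_ne_zero _ (by exact_mod_cast r.2.ne_zero)
      rw [Finset.prod_insert hp, padicValRat.mul (hne p) (Finset.prod_ne_zero_iff.2 fun r _ => hne r),
        ih, padicValRat.zpow, padicValRat.of_nat]
      by_cases hpq : p = q
      · subst hpq
        rw [padicValNat_self]
        simp [hp]
      · have h4 : padicValNat (q : ℕ) (p : ℕ) = 0 := by
          refine padicValNat.eq_zero_of_not_dvd fun h => hpq ?_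
          exact (Nat.Primes.coe_nat_injective ((Nat.prime_dvd_prime_iff_eq q.2 p.2).1 h)).symm
        rw [h4]
        have h5 : ¬ q = p := fun h => hpq h.symm
        simp [h5]
  have h4 := h3 a.support
  rw [h2] at h4
  simp only [padicValRat.one, Finsupp.mem_support_iff] at h4
  by_contra hq
  have hq' : a q ≠ 0 := hq
  rw [if_pos hq'] at h4
  exact hq' h4.symm

/-- the first elements of the basis -/
noncomputable def fam : Option Nat.Primes → ℂ
  | none => Real.pi * Complex.I
  | some p => (Real.log (p : ℕ) : ℝ)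

theorem fam_indep : LinearIndependent ℚ fam := by
  rw [linearIndependent_iff]
  intro a ha
  rw [Finsupp.linearCombination_apply, Finsupp.sum] at ha
  have hre : ∑ x ∈ a.support, (a x : ℝ) * (fam x).re = 0 := by
    have h := congrArg Complex.re ha
    rw [Complex.re_sum, Complex.zero_re] at h
    rw [← h]
    refine Finset.sum_congr rfl fun x _ => ?_
    rw [Algebra.smul_def]
    change _ = (((a x : ℚ) : ℂ) * fam x).re
    have : ((a x : ℚ) : ℂ) = (((a x : ℚ) : ℝ) : ℂ) := by push_cast; rfl
    rw [this, Complex.re_ofReal_mul]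
  have him : ∑ x ∈ a.support, (a x : ℝ) * (fam x).im = 0 := by
    have h := congrArg Complex.im ha
    rw [Complex.im_sum, Complex.zero_im] at h
    rw [← h]
    refine Finset.sum_congr rfl fun x _ => ?_
    rw [Algebra.smul_def]
    change _ = (((a x : ℚ) : ℂ) * fam x).im
    have : ((a x : ℚ) : ℂ) = (((a x : ℚ) : ℝ) : ℂ) := by push_cast; rfl
    rw [this, Complex.im_ofReal_mul]
  have h0 : a none = 0 := by
    by_contra hne
    have h1 : ∑ x ∈ a.support, (a x : ℝ) * (fam x).im = (a none : ℝ) * Real.pi := by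
      rw [Finset.sum_eq_single none]
      · simp [fam]
      · intro x _ hx
        obtain ⟨p, rfl⟩ := Option.ne_none_iff_exists'.1 hx
        simp only [fam, Complex.ofReal_im, mul_zero]
      · intro h
        rw [Finsupp.notMem_support_iff] at h
        exact absurd h hne
    rw [h1] at him
    rcases mul_eq_zero.1 him with h | h
    · exact hne (by exact_mod_cast h)
    · exact Real.pi_ne_zero h
  have h1 : Finsupp.linearCombination ℚ (fun p : Nat.Primes => Real.log (p : ℕ)) a.some = 0 := by
    rw [← hre, Finsupp.linearCombination_apply]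
    have h2 := Finsupp.sum_option_index a (fun x r => (r : ℝ) * (fam x).re)
      (fun x => by simp) (fun x r r' => by push_cast; ring)
    rw [Finsupp.sum] at h2
    rw [h2, h0]
    simp only [Rat.cast_zero, zero_mul, zero_add]
    refine Finsupp.sum_congr fun p _ => ?_
    rw [Algebra.smul_def]
    change _ = _ * ((Real.log (p : ℕ) : ℝ) : ℂ).re
    rw [Complex.ofReal_re]
    rfl
  have h2 := linearIndependent_iff.1 logs_indep _ h1
  ext x
  rcases x with _ | p
  · exact h0
  · have h3 := DFunLike.congr_fun h2 p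
    rw [Finsupp.some_apply] at h3
    exact h3

theorem fam_typ (x : Option Nat.Primes) :
    fam x ∈ {z | z ∈ Lam ∧ (conj z = z ∨ conj z = -z)} := by
  rcases x with _ | p
  · refine ⟨?_, Or.inr ?_⟩
    · have h : Complex.exp (Real.pi * Complex.I) ∈ M.closure ∅ := by
        rw [Complex.exp_pi_mul_I]
        have h2 := cl_ratCast ∅ (-1)
        rwa [Rat.cast_neg, Rat.cast_one] at h2
      exact h
    · change conj ((Real.pi : ℂ) * Complex.I) = -((Real.pi : ℂ) * Complex.I)
      rw [map_mul, Complex.conj_I, Complex.conj_ofReal]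
      ring
  · refine ⟨?_, Or.inl ?_⟩
    · have h : Complex.exp ((Real.log (p : ℕ) : ℝ) : ℂ) ∈ M.closure ∅ := by
        rw [← Complex.ofReal_exp, Real.exp_log (by exact_mod_cast p.2.pos)]
        have h2 := cl_ratCast ∅ ((p : ℕ) : ℚ)
        rwa [Rat.cast_natCast] at h2
      exact h
    · exact Complex.conj_ofReal _

theorem exists_basis' : ∃ b : Set ℂ, b ⊆ {z | z ∈ Lam ∧ (conj z = z ∨ conj z = -z)} ∧
    range fam ⊆ b ∧ (∀ z ∈ Lam, z ∈ span ℚ b) ∧
    LinearIndependent ℚ (Subtype.val : b → ℂ) := by
  have hs : LinearIndepOn ℚ id (range fam) := fam_indep.linearIndepOn_id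
  obtain ⟨b, hb, h1, h2, h3⟩ := exists_linearIndepOn_id_extension hs
    (show range fam ⊆ {z | z ∈ Lam ∧ (conj z = z ∨ conj z = -z)} from range_subset_iff.2 fam_typ)
  refine ⟨b, hb, h1, fun z hz => ?_, h3⟩
  have e : z = (2⁻¹ : ℚ) • (z + conj z) + (2⁻¹ : ℚ) • (z - conj z) := by
    rw [← smul_add, add_add_sub_cancel, ← two_smul ℚ z, smul_smul]
    norm_num
  rw [e]
  refine add_mem (Submodule.smul_mem _ _ (h2 ⟨Lam.add_mem hz (conj_Lam hz), Or.inl ?_⟩))
    (Submodule.smul_mem _ _ (h2 ⟨Lam.sub_mem hz (conj_Lam hz), Or.inr ?_⟩))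
  · rw [map_add, Complex.conj_conj, add_comm]
  · rw [map_sub, Complex.conj_conj, neg_sub]

theorem move {α : Type} {x y : Fin 3 → α} (hx : Function.Injective x) (hy : Function.Injective y) :
    ∃ π : Equiv.Perm α, ∀ i, π (x i) = y i := by
  haveI : MulAction.IsMultiplyPretransitive (Equiv.Perm α) α 3 :=
    Equiv.Perm.isMultiplyPretransitive α 3
  obtain ⟨g, hg⟩ := MulAction.exists_smul_eq (Equiv.Perm α) (⟨x, hx⟩ : Fin 3 ↪ α) ⟨y, hy⟩
  exact ⟨g, fun i => DFunLike.congr_fun hg i⟩

/-- **Package LOGB.** -/
theorem logb : S_LOGB := by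
  classical
  obtain ⟨b, hb, hf, hspan, hli⟩ := exists_basis'
  have hcount : Countable b := (countable_Lam.mono fun z hz => (hb hz).1).to_subtype
  let x : Option Nat.Primes → b := fun i => ⟨fam i, hf ⟨i, rfl⟩⟩
  have hx : Function.Injective x := fun i j h => fam_indep.injective (congrArg Subtype.val h)
  have hinf : Infinite b := Infinite.of_injective (fun p : Nat.Primes => x (some p))
    (hx.comp (Option.some_injective _))
  obtain ⟨φ⟩ : Nonempty (b ≃ ℕ) := nonempty_equiv_of_countable
  let y : Fin 3 → b := ![x none, x (some ⟨2, Nat.prime_two⟩), x (some ⟨3, Nat.prime_three⟩)]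
  have hy : Function.Injective y := by
    have h01 : x none ≠ x (some ⟨2, Nat.prime_two⟩) := fun h => by simpa using hx h
    have h02 : x none ≠ x (some ⟨3, Nat.prime_three⟩) := fun h => by simpa using hx h
    have h12 : x (some ⟨2, Nat.prime_two⟩) ≠ x (some ⟨3, Nat.prime_three⟩) := fun h => by
      have h3 : (2 : ℕ) = 3 := congrArg (fun p : Nat.Primes => (p : ℕ))
        (Option.some_injective _ (hx h))
      exact absurd h3 (by decide)
    intro i j h
    fin_cases i <;> fin_cases j <;> (first
      | rfl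
      | exact absurd h h01
      | exact absurd h h02
      | exact absurd h h12
      | exact absurd h.symm h01
      | exact absurd h.symm h02
      | exact absurd h.symm h12)
  obtain ⟨π, hπ⟩ := move (x := fun i : Fin 3 => (i : ℕ)) (y := fun i => φ (y i))
    Fin.val_injective (φ.injective.comp hy)
  let σ : ℕ ≃ b := π.trans φ.symm
  have hσ : ∀ i : Fin 3, σ i = y i := by
    intro i
    change φ.symm (π (i : ℕ)) = y i
    rw [hπ i, Equiv.symm_apply_apply]
  have w0 : (σ 0 : ℂ) = Real.pi * Complex.I := congrArg Subtype.val (hσ 0)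
  have w1 : (σ 1 : ℂ) = Real.log 2 := by
    have h := congrArg Subtype.val (hσ 1)
    exact h
  have w2 : (σ 2 : ℂ) = Real.log 3 := by
    have h := congrArg Subtype.val (hσ 2)
    exact h
  have hc : ∀ r : ℝ, conj (r : ℂ) = r := Complex.conj_ofReal
  refine ⟨fun k => (σ k : ℂ), fun k => if conj (σ k : ℂ) = σ k then 1 else Complex.I,
    ⟨?_, ?_, ?_, ?_, w0, ?_, w1, ?_, w2⟩⟩
  · intro k
    by_cases h : conj (σ k : ℂ) = σ k
    · exact Or.inl ⟨if_pos h, h⟩
    · exact Or.inr ⟨if_neg h, (hb (σ k).2).2.resolve_left h⟩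
  · exact hli.comp σ σ.injective
  · intro z
    have e : range (fun k => (σ k : ℂ)) = b := by
      ext u
      constructor
      · rintro ⟨k, rfl⟩
        exact (σ k).2
      · intro hu
        exact ⟨σ.symm ⟨u, hu⟩, by simp⟩
    rw [e]
    constructor
    · intro hz
      exact span_le (p := Lam).2 (fun u hu => (hb hu).1) hz
    · intro hz
      exact hspan z hz
  · rw [w0]
    refine if_neg fun h => ?_
    rw [map_mul, Complex.conj_I, hc] at h
    have h1 := congrArg Complex.im h
    simp at h1
    have := Real.pi_pos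
    linarith
  · rw [w1]
    exact if_pos (hc _)
  · rw [w2]
    exact if_pos (hc _)

end Pool.Agent.Helper58.MM
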